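import Mathlib
import Pool.Agent.H9.Bry.PK3

/-!
Board hxb, row SPC: averaging over the m-subsets.
-/

set_option autoImplicit false

namespace Pool.Agent.H15.HX

open Finset Pool.Agent.H9.Bry

theorem averaging_double {α : Type*} [DecidableEq α] (Q : Finset α) (m : ℕ) (f : Finset α → ℕ) :
    ∑ Y ∈ powersetCard m Q, ∑ x ∈ Q \ Y, (f (insert x Y) : ℝ) =
      (m + 1) * ∑ Y ∈ powersetCard (m + 1) Q, (f Y : ℝ) := by
  have h := PK3_double Q m (fun Y x => f (insert x Y))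
  have h1 : ∑ Y ∈ powersetCard (m + 1) Q, ∑ y ∈ Y, f (insert y (Y.erase y)) =
      (m + 1) * ∑ Y ∈ powersetCard (m + 1) Q, f Y := by
    rw [mul_sum]
    refine sum_congr rfl fun Y hY => ?_
    have h2 : ∑ y ∈ Y, f (insert y (Y.erase y)) = ∑ _y ∈ Y, f Y :=
      sum_congr rfl fun y hy => by rw [insert_erase hy]
    rw [h2, sum_const, (mem_powersetCard.1 hY).2, smul_eq_mul]
  rw [h1] at h
  exact_mod_cast h.symm

theorem averaging_const {α : Type*} [DecidableEq α] (Q : Finset α) (m : ℕ) (f : Finset α → ℕ) :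
    ∑ Y ∈ powersetCard m Q, ∑ _x ∈ Q \ Y, (f Y : ℝ) =
      ((Q.card - m : ℕ) : ℝ) * ∑ Y ∈ powersetCard m Q, (f Y : ℝ) := by
  rw [mul_sum]
  refine sum_congr rfl fun Y hY => ?_
  obtain ⟨h1, h2⟩ := mem_powersetCard.1 hY
  rw [sum_const, card_sdiff_of_subset h1, h2, nsmul_eq_mul]

theorem averaging {α : Type*} [DecidableEq α] (Q : Finset α) (b w : Finset α → ℕ) (d R B M : ℕ)
    (hM : M ≤ Q.card)
    (hb1 : ∀ Y ⊆ Q, ∀ x ∈ Q \ Y, b Y ≤ b (insert x Y))
    (hb2 : ∀ Y ⊆ Q, d * (R - w Y - b Y) ≤ 2 * ∑ x ∈ Q \ Y, (b (insert x Y) - b Y))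
    (hw1 : ∀ Y ⊆ Q, ∀ x ∈ Q \ Y, w (insert x Y) ≤ w Y)
    (hw2 : ∀ Y ⊆ Q, d * w Y ≤ ∑ x ∈ Q \ Y, (w Y - w (insert x Y)))
    (hR : ∀ Y ⊆ Q, w Y + b Y ≤ R) (hB : ∀ Y ⊆ Q, b Y ≤ B * Y.card) :
    2 * d * M * R ≤ 2 * Q.card * R + B * M * (4 * Q.card + d * (M - 1)) := by
  classical
  set N := Q.card with hN
  -- sums over the m-subsets and their averages
  set Sb : ℕ → ℝ := fun m => ∑ Y ∈ powersetCard m Q, (b Y : ℝ) with hSb
  set Sw : ℕ → ℝ := fun m => ∑ Y ∈ powersetCard m Q, (w Y : ℝ) with hSw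
  set β : ℕ → ℝ := fun m => Sb m / (N.choose m : ℝ) with hβ
  set ω : ℕ → ℝ := fun m => Sw m / (N.choose m : ℝ) with hω
  have hC : ∀ m, m ≤ N → (0 : ℝ) < (N.choose m : ℝ) := fun m hm => by
    exact_mod_cast Nat.choose_pos hm
  have hSbβ : ∀ m, m ≤ N → Sb m = (N.choose m : ℝ) * β m := fun m hm => by
    simp only [hβ]; field_simp [(hC m hm).ne']
  have hSwω : ∀ m, m ≤ N → Sw m = (N.choose m : ℝ) * ω m := fun m hm => by
    simp only [hω]; field_simp [(hC m hm).ne']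
  have hch : ∀ m, m < N → ((m : ℝ) + 1) * (N.choose (m + 1) : ℝ) =
      ((N - m : ℕ) : ℝ) * (N.choose m : ℝ) := fun m _ => by
    have h := Nat.choose_succ_right_eq N m
    have h' : ((N.choose (m + 1) : ℕ) : ℝ) * ((m : ℝ) + 1) =
      (N.choose m : ℝ) * ((N - m : ℕ) : ℝ) := by exact_mod_cast h
    linarith
  -- step inequalities
  have hb1' : ∀ m, m < N → ((N - m : ℕ) : ℝ) * Sb m ≤ ((m : ℝ) + 1) * Sb (m + 1) := by
    intro m hm
    have h1 := averaging_double Q m b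
    have h2 := averaging_const Q m b
    rw [← hN] at h2
    simp only [hSb]
    rw [← h1, ← h2]
    refine sum_le_sum fun Y hY => sum_le_sum fun x hx => ?_
    exact_mod_cast hb1 Y (mem_powersetCard.1 hY).1 x hx
  have hb2' : ∀ m, m < N → (d : ℝ) * ((N.choose m : ℝ) * R - Sw m - Sb m) ≤
      2 * (((m : ℝ) + 1) * Sb (m + 1) - ((N - m : ℕ) : ℝ) * Sb m) := by
    intro m hm
    have h1 := averaging_double Q m b
    have h2 := averaging_const Q m b
    rw [← hN] at h2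
    have h3 : (N.choose m : ℝ) * R = ∑ _Y ∈ powersetCard m Q, (R : ℝ) := by
      rw [sum_const, card_powersetCard, nsmul_eq_mul, ← hN]
    simp only [hSb, hSw]
    rw [← h1, ← h2, h3, ← sum_sub_distrib, ← sum_sub_distrib, ← sum_sub_distrib, mul_sum, mul_sum]
    refine sum_le_sum fun Y hY => ?_
    have hY' := (mem_powersetCard.1 hY).1
    have h4 := hb2 Y hY'
    have h5 := hR Y hY'
    have h6 : ((R - w Y - b Y : ℕ) : ℝ) = (R : ℝ) - w Y - b Y := by
      rw [Nat.cast_sub (by omega), Nat.cast_sub (by omega)]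
    have h7 : ((∑ x ∈ Q \ Y, (b (insert x Y) - b Y) : ℕ) : ℝ) =
        ∑ x ∈ Q \ Y, (b (insert x Y) : ℝ) - ∑ _x ∈ Q \ Y, (b Y : ℝ) := by
      rw [Nat.cast_sum, ← sum_sub_distrib]
      exact sum_congr rfl fun x hx => Nat.cast_sub (hb1 Y hY' x hx)
    rw [← h6, ← h7]
    exact_mod_cast h4
  have hw2' : ∀ m, m < N → (d : ℝ) * Sw m ≤
      ((N - m : ℕ) : ℝ) * Sw m - ((m : ℝ) + 1) * Sw (m + 1) := by
    intro m hm
    have h1 := averaging_double Q m w
    have h2 := averaging_const Q m w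
    rw [← hN] at h2
    simp only [hSw]
    rw [← h1, ← h2, ← sum_sub_distrib, mul_sum]
    refine sum_le_sum fun Y hY => ?_
    have hY' := (mem_powersetCard.1 hY).1
    have h4 := hw2 Y hY'
    have h7 : ((∑ x ∈ Q \ Y, (w Y - w (insert x Y)) : ℕ) : ℝ) =
        ∑ _x ∈ Q \ Y, (w Y : ℝ) - ∑ x ∈ Q \ Y, (w (insert x Y) : ℝ) := by
      rw [Nat.cast_sum, ← sum_sub_distrib]
      exact sum_congr rfl fun x hx => Nat.cast_sub (hw1 Y hY' x hx)
    rw [← h7]
    exact_mod_cast h4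
  -- the same for averages
  have hmon : ∀ m, m < N → β m ≤ β (m + 1) := by
    intro m hm
    have h1 := hb1' m hm
    rw [hSbβ m hm.le, hSbβ (m + 1) hm, ← mul_assoc, ← mul_assoc, hch m hm] at h1
    have hp : (0 : ℝ) < ((N - m : ℕ) : ℝ) * (N.choose m : ℝ) :=
      mul_pos (by exact_mod_cast Nat.sub_pos_of_lt hm) (hC m hm.le)
    exact le_of_mul_le_mul_left h1 hp
  have hle : ∀ m, ((N - m : ℕ) : ℝ) ≤ (N : ℝ) := fun m => by exact_mod_cast Nat.sub_le N m
  have hstepb : ∀ m, m < N → (d : ℝ) * (R - ω m - β m) ≤ 2 * N * (β (m + 1) - β m) := by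
    intro m hm
    have h1 := hb2' m hm
    rw [hSbβ m hm.le, hSbβ (m + 1) hm, hSwω m hm.le, ← mul_assoc ((m : ℝ) + 1), hch m hm] at h1
    have hp := hC m hm.le
    have h2 : (d : ℝ) * (R - ω m - β m) ≤ 2 * (((N - m : ℕ) : ℝ) * (β (m + 1) - β m)) := by
      refine le_of_mul_le_mul_left ?_ hp
      calc (N.choose m : ℝ) * ((d : ℝ) * (R - ω m - β m))
          = (d : ℝ) * ((N.choose m : ℝ) * R - (N.choose m : ℝ) * ω m - (N.choose m : ℝ) * β m) := by
            ring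
        _ ≤ _ := h1
        _ = _ := by ring
    have h3 : ((N - m : ℕ) : ℝ) * (β (m + 1) - β m) ≤ N * (β (m + 1) - β m) :=
      mul_le_mul_of_nonneg_right (hle m) (sub_nonneg.2 (hmon m hm))
    linarith
  have hstepw : ∀ m, m < N → (d : ℝ) * ω m ≤ N * (ω m - ω (m + 1)) := by
    intro m hm
    have h1 := hw2' m hm
    rw [hSwω m hm.le, hSwω (m + 1) hm, ← mul_assoc ((m : ℝ) + 1), hch m hm] at h1
    have hp := hC m hm.le
    have h2 : (d : ℝ) * ω m ≤ ((N - m : ℕ) : ℝ) * (ω m - ω (m + 1)) := by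
      refine le_of_mul_le_mul_left ?_ hp
      calc (N.choose m : ℝ) * ((d : ℝ) * ω m) = (d : ℝ) * ((N.choose m : ℝ) * ω m) := by ring
        _ ≤ _ := h1
        _ = _ := by ring
    have h0 : 0 ≤ ω m := by
      simp only [hω, hSw]
      positivity
    have h4 : 0 ≤ ω m - ω (m + 1) := by
      have hq : (0 : ℝ) < ((N - m : ℕ) : ℝ) := by exact_mod_cast Nat.sub_pos_of_lt hm
      have h5 : 0 ≤ ((N - m : ℕ) : ℝ) * (ω m - ω (m + 1)) :=
        le_trans (mul_nonneg (Nat.cast_nonneg d) h0) h2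
      exact nonneg_of_mul_nonneg_right h5 hq
    exact h2.trans (mul_le_mul_of_nonneg_right (hle m) h4)
  -- bounds for the averages
  have hβle : ∀ m, m ≤ N → β m ≤ B * m := by
    intro m hm
    have hp := hC m hm
    simp only [hβ]
    rw [div_le_iff₀ hp]
    have h1 : Sb m ≤ ∑ _Y ∈ powersetCard m Q, ((B : ℝ) * m) := by
      refine sum_le_sum fun Y hY => ?_
      obtain ⟨h2, h3⟩ := mem_powersetCard.1 hY
      have h4 := hB Y h2
      rw [h3] at h4
      exact_mod_cast h4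
    rw [sum_const, card_powersetCard, nsmul_eq_mul, ← hN] at h1
    linarith
  have hβ0 : 0 ≤ β 0 := by
    simp only [hβ, hSb]
    positivity
  have hωM : 0 ≤ ω M := by
    simp only [hω, hSw]
    positivity
  have hω0 : ω 0 ≤ R := by
    have h1 := hR ∅ (empty_subset _)
    have h2 : w ∅ ≤ R := by omega
    have h3 : ω 0 = (w ∅ : ℝ) := by
      change (∑ Y ∈ powersetCard 0 Q, (w Y : ℝ)) / ((N.choose 0 : ℕ) : ℝ) = (w ∅ : ℝ)
      rw [powersetCard_zero, sum_singleton, Nat.choose_zero_right, Nat.cast_one, div_one]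
    rw [h3]
    exact_mod_cast h2
  -- summation
  have hsum1 : (d : ℝ) * (M * R - ∑ m ∈ range M, ω m - ∑ m ∈ range M, β m) ≤
      2 * N * (β M - β 0) := by
    have h1 : ∑ m ∈ range M, (d : ℝ) * (R - ω m - β m) ≤
        ∑ m ∈ range M, 2 * (N : ℝ) * (β (m + 1) - β m) :=
      sum_le_sum fun m hm => hstepb m (lt_of_lt_of_le (mem_range.1 hm) hM)
    rw [← mul_sum, ← mul_sum, sum_range_sub, sum_sub_distrib, sum_sub_distrib, sum_const,
      card_range, nsmul_eq_mul] at h1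
    exact h1
  have hsum2 : (d : ℝ) * ∑ m ∈ range M, ω m ≤ N * (ω 0 - ω M) := by
    have h1 : ∑ m ∈ range M, (d : ℝ) * ω m ≤ ∑ m ∈ range M, (N : ℝ) * (ω m - ω (m + 1)) :=
      sum_le_sum fun m hm => hstepw m (lt_of_lt_of_le (mem_range.1 hm) hM)
    rw [← mul_sum, ← mul_sum, sum_range_sub'] at h1
    exact h1
  have hsum3 : ∑ m ∈ range M, β m ≤ B * (∑ m ∈ range M, (m : ℝ)) := by
    rw [mul_sum]
    exact sum_le_sum fun m hm => hβle m (lt_of_lt_of_le (mem_range.1 hm) hM).le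
  have hgauss : 2 * (∑ m ∈ range M, (m : ℝ)) = M * ((M - 1 : ℕ) : ℝ) := by
    have h1 := Finset.sum_range_id_mul_two M
    have h2 : ((∑ i ∈ range M, i : ℕ) : ℝ) * 2 = (M : ℝ) * ((M - 1 : ℕ) : ℝ) := by
      exact_mod_cast h1
    rw [Nat.cast_sum] at h2
    linarith
  have hβM := hβle M hM
  have hd : (0 : ℝ) ≤ d := Nat.cast_nonneg d
  have hNn : (0 : ℝ) ≤ N := Nat.cast_nonneg N
  have h3' := mul_le_mul_of_nonneg_left hsum3 hd
  have hfin : 2 * (d : ℝ) * M * R ≤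
      2 * N * R + B * M * (4 * N + d * ((M - 1 : ℕ) : ℝ)) := by
    have e1 : (N : ℝ) * (ω 0 - ω M) ≤ N * R :=
      mul_le_mul_of_nonneg_left (by linarith) hNn
    have e2 : 2 * (N : ℝ) * (β M - β 0) ≤ 2 * N * (B * M) :=
      mul_le_mul_of_nonneg_left (by linarith) (mul_nonneg zero_le_two hNn)
    have e3 : (d : ℝ) * (B * (∑ m ∈ range M, (m : ℝ))) * 2 =
        B * M * (d * ((M - 1 : ℕ) : ℝ)) := by
      calc (d : ℝ) * (B * (∑ m ∈ range M, (m : ℝ))) * 2
          = d * B * (2 * (∑ m ∈ range M, (m : ℝ))) := by ring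
        _ = _ := by rw [hgauss]; ring
    have e4 : (d : ℝ) * (M * R - ∑ m ∈ range M, ω m - ∑ m ∈ range M, β m) =
        d * M * R - d * ∑ m ∈ range M, ω m - d * ∑ m ∈ range M, β m := by ring
    rw [e4] at hsum1
    have e5 : (B : ℝ) * M * (4 * N + d * ((M - 1 : ℕ) : ℝ)) =
        2 * (2 * N * (B * M)) + B * M * (d * ((M - 1 : ℕ) : ℝ)) := by ring
    rw [e5, ← e3]
    linarith
  exact_mod_cast hfin

end Pool.Agent.H15.HX
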